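import Mathlib
import Pool.Agent.H419.BD.Fam

set_option autoImplicit false

/-!
# The Sato-Tate law in almost all residue classes of moduli up to the length

`K` is a number field, `G` a compact group (the Sato-Tate group of an abelian variety over `K`, or a
larger compact group), and `x_v ∈ G` an element of the class of the prime `v` of `K` (any element at
the finitely many exceptional primes); `q_v` is the norm of `v`. Let `𝓕` be a compact set of
continuous functions on `G`, for instance all class functions which are bounded by `1` and have
Lipschitz constant `1` for some metric.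

`share K N m c` is the number of the `v` with `q_v ≤ N` and `q_v ≡ c (mod m)`, divided by
`π_K(N) / φ(m)`. `AlmostAll η M P` says that `P m c` holds for all `m ≤ M`, apart from at most `η M`,
and all reduced residue classes `c` modulo `m`, apart from at most `η φ(m)`.

1. (Nothing is assumed about the `x_v`.) For all `η > 0` there are `D`, `N₀` and `κ > 0`, which
   depend on `K`, `G`, `𝓕` and `η` but not on the `x_v`, such that for `N ≥ N₀`, all
   `M ≤ κ N / log N`, almost all `m ≤ M` and almost all `c` modulo `m` the number of the primes and
   the means of the `f(x_v)` are, up to `η`, the same for the class of `c` modulo `m` as for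
   the class of `c` modulo the greatest common divisor of `m` and the fixed number `D` (the means
   if the class contains at least `η` times the expected number of primes).
2. If the Sato-Tate law holds in all the fixed residue classes, that is along
   `{v : q_v ≡ c (mod m)}` for every `m` and every reduced class `c` which contains the norm of a
   prime, then it holds up to `η` in almost all residue classes modulo almost all
   `m ≤ κ N / log N`, uniformly for `f ∈ 𝓕`.

So for all functions `M(N) = o(N / log N)` the law in the fixed residue classes implies the law in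
almost all residue classes modulo almost all `m ≤ M(N)`. The range is optimal for the first
statement in 1: for `K = ℚ` and `M ≥ C N / log N` most of the classes contain no prime `≤ N`.

The theorem is an analogue of the theorem of Barban, Davenport and Halberstam, which is about
the number of the primes. Proof: the multiplicative large sieve for sequences which are supported on
integers without small prime factors, which saves a logarithm (Bombieri and Davenport), bounds the
contribution of the characters of conductor `> C(η)`, and the characters of conductor `≤ C(η)` give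
the classes modulo the fixed number `D`; the bound is for the mean over `m ≤ M` of the variances over
the residue classes modulo `m`.
-/

namespace Pool.Agent.Results.MP_6dc561_nt.AlmostAllClasses

open NumberField IsDedekindDomain Filter Topology MeasureTheory
open Pool.Agent.H419.BS (q mean Equidistributed)
open Pool.Agent.H419.BD (share AlmostAll)

/-- **The Sato-Tate law in almost all residue classes of large moduli.** -/
theorem result (K : Type) [Field K] [NumberField K] (G : Type) [Group G] [TopologicalSpace G]
    [IsTopologicalGroup G] [CompactSpace G] (𝓕 : Set C(G, ℂ)) (h𝓕 : IsCompact 𝓕)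
    (η : ℝ) (hη : 0 < η) :
    -- 1. arbitrary classes
    (∃ D N₀ : ℕ, 0 < D ∧ ∃ κ : ℝ, 0 < κ ∧ ∀ x : HeightOneSpectrum (𝓞 K) → G,
      ∀ N : ℕ, N₀ ≤ N → ∀ M : ℕ, (M : ℝ) ≤ κ * (N / Real.log N) →
      AlmostAll η M (fun m c => |share K N m c - share K N (m.gcd D) c| ≤ η ∧
        (η ≤ share K N m c → ∀ f ∈ 𝓕,
          ‖mean (fun v => q v ≡ c [MOD m]) (fun v => f (x v)) N -
            mean (fun v => q v ≡ c [MOD m.gcd D]) (fun v => f (x v)) N‖ ≤ η))) ∧
    -- 2. the law
    (∀ [MeasurableSpace G] [BorelSpace G] (μ : Measure G) [IsProbabilityMeasure μ],
      (∀ f ∈ 𝓕, ∀ g h, f (h * g * h⁻¹) = f g) →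
      ∃ κ : ℝ, 0 < κ ∧ ∀ x : HeightOneSpectrum (𝓞 K) → G,
      (∀ m c : ℕ, 0 < m → c.Coprime m → (∃ v : HeightOneSpectrum (𝓞 K), q v ≡ c [MOD m]) →
        Equidistributed (fun v => q v ≡ c [MOD m]) x μ) →
      ∃ N₀ : ℕ, ∀ N : ℕ, N₀ ≤ N → ∀ M : ℕ, (M : ℝ) ≤ κ * (N / Real.log N) →
      AlmostAll η M (fun m c => η ≤ share K N m c → ∀ f ∈ 𝓕,
        ‖mean (fun v => q v ≡ c [MOD m]) (fun v => f (x v)) N - ∫ g, f g ∂μ‖ ≤ η)) := by
  refine ⟨Pool.Agent.H419.BD.family K 𝓕 h𝓕 η hη, ?_⟩
  intro _ _ μ _ hcl
  exact Pool.Agent.H419.BD.law K μ 𝓕 h𝓕 hcl η hη

end Pool.Agent.Results.MP_6dc561_nt.AlmostAllClasses
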