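import Pool.Agent.H419.BS.Final

/-!
# The Sato-Tate law along the primes of Bohr sets

`K` is a number field, `G` the Sato-Tate group of an abelian surface (any compact group with
a countable base) and `x v ∈ G` the classes; the first three parts of the theorem are unconditional
and hold for arbitrary `x v ∈ G`.  For `α ∈ ℝ^r` let `pt α v = α q_v` modulo one, a point of the torus
`T = (ℝ/ℤ)^r`.  `Independent x α` says that in the limit the points `α q_v` are uniformly distributed
in `T` and independent of the `x v` (whose law need not be known or exist).

* The set of the exceptional `α` has measure zero for every gauge function `h` with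
  `∑_j 2^{j(r-1)} h(2^{-j}) < ∞`, and its Hausdorff dimension is exactly `r - 1`.  For `r = 1` the
  dimension is zero, and the measure is zero even for the logarithmic gauges
  `(log 1/t)^{-1-ε}`.
* For all other `α` and all `B ⊆ T` of positive measure with null boundary the primes `v` with
  `α q_v ∈ B` have density `|B|`, the mean values of `f(x_v)` over them and over all primes have the
  same behaviour, and the Sato-Tate law holds for the family if and only if it holds along these
  primes, and if and only if the joint law of `x_v` and `α q_v` is the product law.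

The proof uses the large sieve for frequencies and coefficients supported on the primes, in the
sharp form for few frequencies (`C N log(2m) / log N` instead of `N` for `m` points which are
`1/N`-separated): for a bounded number of scales `N` in each dyadic interval the `β ∈ ℝ/ℤ` at which
the exponential sum `∑_{q_v ≤ N} f(x_v) e(β q_v)` has size at least `η π(N)` are in a bounded number
of arcs of length `2/N`.
-/

set_option autoImplicit false

namespace Pool.Agent.Results.MP_6dc561_nt.BohrSets

open NumberField IsDedekindDomain Filter Topology MeasureTheory
open Pool.Agent.H419.BS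
open scoped ENNReal

theorem result (K : Type) [Field K] [NumberField K]
    (G : Type) [Group G] [TopologicalSpace G] [IsTopologicalGroup G] [CompactSpace G] [T2Space G]
    [SecondCountableTopology G] [MeasurableSpace G] [BorelSpace G] (μ : Measure G)
    [IsProbabilityMeasure μ] [μ.IsHaarMeasure] (x : HeightOneSpectrum (𝓞 K) → G) (r : ℕ) :
    (∀ h : ℝ≥0∞ → ℝ≥0∞, IsGauge r h →
      Measure.mkMetric h {α : Fin r → ℝ | ¬ Independent x α} = 0) ∧
    dimH {α : Fin r → ℝ | ¬ Independent x α} = ((r - 1 : ℕ) : ℝ≥0∞) ∧
    ∀ α : Fin r → ℝ, Independent x α →
      (∀ B : Set (UnitAddTorus (Fin r)), haarT r (frontier B) = 0 → haarT r B ≠ 0 →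
        Tendsto (fun N : ℕ =>
          (Nat.card {v : HeightOneSpectrum (𝓞 K) // pt α v ∈ B ∧ q v ≤ N} : ℝ) /
            Nat.card {v : HeightOneSpectrum (𝓞 K) // q v ≤ N}) atTop (𝓝 ((haarT r).real B)) ∧
        (∀ f : G → ℂ, Continuous f →
          Tendsto (fun N => mean (fun v => pt α v ∈ B) (fun v => f (x v)) N -
            meanAll (fun v => f (x v)) N) atTop (𝓝 0)) ∧
        (Equidistributed (fun v => pt α v ∈ B) x μ ↔ Equidistributed (fun _ => True) x μ)) ∧
      (Equidistributed (fun _ => True) x μ ↔
        ∀ F : G × UnitAddTorus (Fin r) → ℂ, Continuous F →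
          (∀ g h y, F (h * g * h⁻¹, y) = F (g, y)) →
          Tendsto (meanAll fun v => F (x v, pt α v)) atTop
            (𝓝 (∫ g, ∫ y, F (g, y) ∂(haarT r) ∂μ))) :=
  ⟨fun _ hh => null x r hh, dim_eq x r, fun _ hα =>
    ⟨fun _ hB hpos => ⟨density_ratio hα hB, fun _ hf => bohr hα hf hB hpos,
      law_iff μ hα hB hpos⟩, joint_law μ hα⟩⟩

end Pool.Agent.Results.MP_6dc561_nt.BohrSets
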