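import Pool.Agent.H419.RS.NF
import Pool.Agent.H419.RS.Quad

/-!
# The Sato-Tate law over a number field from the law over imaginary quadratic fields

`K / k` is an extension of number fields, for instance `k = ℚ` and `K` any number field, and `V` an
abelian surface over `K`, with Sato-Tate group `G` and classes `x_w ∈ G`.  Its restriction
of scalars `R` (the induced family) is an abelian variety over `k`, with Sato-Tate group
`H` and classes `D.x v ∈ H`; the theorem uses only the evident relation between the two: `H` permutes
the embeddings `e` of `K` transitively, `c h e ∈ G` are the entries of `h ∈ H` (`IsInduced`), and for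
almost all `v` the cycles of `D.x v` belong to the primes `w` of `K` above `v`, the length of the
cycle being the residue degree and the product of the entries along the cycle being in the class of
`x_w` (`IsInducedAt`).

Suppose that the law holds for the base change of `R` to infinitely many quadratic extensions `F_i` of
`k` (any ones: for `k = ℚ` for instance to infinitely many imaginary quadratic fields in which all the
bad primes of `R` split), or for its base change to the fields of any independent family with
`∑ 1 / (r_i - 1) = ∞`, or for `R` over `k`.  Then

* the Sato-Tate law holds for `V` over `K`;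
* at the primes `w` of `K` of a given residue degree `f` over `k`, which have density zero if `f > 1`
  and are therefore not seen by the law over `K`, the classes `x_w` have a limit law too: the image
  of the Haar measure of the set of the pairs `(h, e)`, `e` of exact period `f` under `h`, under
  `(h, e) ↦ c (h ^ f) e`;
* if `H` contains the full product of copies of `G`, that is, the conjugates of `V` are independent,
  this is the Haar measure of `G` for every `f`.

So the Sato-Tate conjecture for abelian surfaces over all number fields follows from the law for their
restrictions of scalars over the imaginary quadratic fields in which any finite set of primes, which may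
depend on the variety, splits.
-/

set_option autoImplicit false

namespace Pool.Agent.Results.MP_6dc561_nt.RestrictionOfScalars

open NumberField IsDedekindDomain Filter Topology MeasureTheory
open Pool.Agent.Helper644_ST Pool.Agent.H419.RS

/-- The law holds for the base change of the family to infinitely many quadratic extensions of
`k`. -/
def OverQuadratic {k : Type} [Field k] [NumberField k] {H : Type} [Group H] [TopologicalSpace H]
    [MeasurableSpace H] (D : Datum k H) (μ : Measure H) : Prop :=
  ∃ (F : ℕ → Type) (_ : ∀ i, Field (F i)) (_ : ∀ i, NumberField (F i)) (_ : ∀ i, Algebra k (F i)),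
    (∀ i, Module.finrank k (F i) = 2) ∧ (∀ i j, i ≠ j → IsEmpty (F i ≃ₐ[k] F j)) ∧
    ∀ i, D.SatoTateOver (F i) μ

/-- The law holds for the base change of the family to the fields of an independent sequence of
extensions of `k`, with a divergent sum of weights. -/
def OverIndependent {k : Type} [Field k] [NumberField k] {H : Type} [Group H] [TopologicalSpace H]
    [MeasurableSpace H] (D : Datum k H) (μ : Measure H) : Prop :=
  ∃ (F : ℕ → Type) (_ : ∀ i, Field (F i)) (_ : ∀ i, NumberField (F i)) (_ : ∀ i, Algebra k (F i)),
    Independent k F ∧ (¬ Summable fun i => weight k (F i)) ∧ ∀ i, D.SatoTateOver (F i) μ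

theorem result (k K : Type) [Field k] [NumberField k] [Field K] [NumberField K] [Algebra k K]
    (H : Type) [Group H] [TopologicalSpace H] [IsTopologicalGroup H] [CompactSpace H]
    [MeasurableSpace H] [BorelSpace H] (μ : Measure H) [IsProbabilityMeasure μ] [μ.IsHaarMeasure]
    (G : Type) [Group G] [TopologicalSpace G] [IsTopologicalGroup G] [CompactSpace G]
    [MeasurableSpace G] [BorelSpace G] (ν : Measure G) [IsProbabilityMeasure ν] [ν.IsHaarMeasure]
    (E : Type) [Fintype E] [Nonempty E] [MulAction H E] (c : H → E → G) (hc : IsInduced c)
    (D : Datum k H) (x : HeightOneSpectrum (𝓞 K) → G)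
    (hx : ∀ᶠ v in cofinite, IsInducedAt c (D.x v) x v)
    (hlaw : D.SatoTate μ ∨ OverQuadratic D μ ∨ OverIndependent D μ) :
    (∀ φ : G → ℝ, IsClassFunction φ →
      Tendsto (Pool.Agent.Helper644_ST.avg fun w => φ (x w)) atTop (𝓝 (∫ g, φ g ∂ν))) ∧
    (∀ f : ℕ, 0 < f → (∃ (h : H) (e : E), MulAction.period h e = f) →
      ∀ φ : G → ℝ, IsClassFunction φ →
        Tendsto (avgDeg k f fun w => φ (x w)) atTop (𝓝 (cycleMean μ c f φ)) ∧
        (IsFull c → cycleMean μ c f φ = ∫ g, φ g ∂ν)) := by
  have hD : D.SatoTate μ := by
    rcases hlaw with h | h | h
    · exact h
    · obtain ⟨F, _, _, _, h1, h2, h3⟩ := h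
      exact descent μ D F (quad_independent F h1 h2) (quad_weight F h1) h3
    · obtain ⟨F, _, _, _, h1, h2, h3⟩ := h
      exact descent μ D F h1 h2 h3
  refine ⟨fun φ hφ => law_K μ ν D x hD hc hx hφ, fun f hf hf' φ hφ =>
    ⟨law_deg μ D x hD hc hx hf' hf hφ, fun hfull => ?_⟩⟩
  unfold cycleMean
  rw [integral_full μ ν hc hfull f hφ.continuous hφ.conj]
  field_simp [(integral_pos μ hc f hf').ne']

end Pool.Agent.Results.MP_6dc561_nt.RestrictionOfScalars
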